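import Pool.Agent.Run7.h946.SQ.Use

/-!
# Prime counts in Oppermann intervals, with conditions modulo one

`1, α_1, …, α_r` are linearly independent over `ℚ`. Outside of one thin set of integers `n` (at most `X / (log X)^A` elements
up to `X` for every `A`) the primes in `[n² - n, n²]` and in `[n², n² + n]` are equidistributed modulo one with respect to
`p ↦ (α_1 p, …, α_r p)`, in the precise form of the problem, `2 A(n; box) log n / n → vol(box)`, and even in all the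
subintervals of length at least `n / (log n)^W`, uniformly for all boxes.
-/

set_option autoImplicit false
set_option maxHeartbeats 4000000

namespace Pool.Agent.Results.MP_a8fbd7_nt.BohrEquidistribution

open Finset Filter Topology
open Run7.h946.SQ (Bohr Independent IsThin cnt Good)

open Classical in
/-- `A(n; box)`: the number of the primes `n² - n ≤ p ≤ n²` with `α p` in the box `[u, v)` modulo one -/
noncomputable def A {r : ℕ} (α u v : Fin r → ℝ) (n : ℕ) : ℕ := ((Icc (n ^ 2 - n) (n ^ 2)).filter (Bohr α u v)).card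

open Classical in
/-- `B(n; box)`: the number of the primes `n² ≤ p ≤ n² + n` with `α p` in the box `[u, v)` modulo one -/
noncomputable def B {r : ℕ} (α u v : Fin r → ℝ) (n : ℕ) : ℕ := ((Icc (n ^ 2) (n ^ 2 + n)).filter (Bohr α u v)).card

theorem A_eq {r : ℕ} (α u v : Fin r → ℝ) (n : ℕ) (hn : 3 ≤ n) : A α u v n = cnt (Bohr α u v) (n ^ 2 - n) (n ^ 2) := by
  classical
  unfold A cnt
  congr 1
  ext p
  simp only [Finset.mem_filter, mem_Icc, mem_Ioc]
  constructor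
  · rintro ⟨⟨h1, h2⟩, h3⟩
    refine ⟨⟨lt_of_le_of_ne h1 ?_, h2⟩, h3⟩
    rintro rfl
    have h4 : n ^ 2 - n = n * (n - 1) := by
      rw [Nat.mul_sub, mul_one, sq]
    have h5 := h3.1
    rw [h4] at h5
    exact Nat.not_prime_mul (by omega) (by omega) h5
  · rintro ⟨⟨h1, h2⟩, h3⟩
    exact ⟨⟨h1.le, h2⟩, h3⟩

theorem B_eq {r : ℕ} (α u v : Fin r → ℝ) (n : ℕ) (hn : 3 ≤ n) : B α u v n = cnt (Bohr α u v) (n ^ 2) (n ^ 2 + n) := by
  classical
  unfold B cnt
  congr 1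
  ext p
  simp only [Finset.mem_filter, mem_Icc, mem_Ioc]
  constructor
  · rintro ⟨⟨h1, h2⟩, h3⟩
    refine ⟨⟨lt_of_le_of_ne h1 ?_, h2⟩, h3⟩
    rintro rfl
    have h5 := h3.1
    rw [sq] at h5
    exact Nat.not_prime_mul (by omega) (by omega) h5
  · rintro ⟨⟨h1, h2⟩, h3⟩
    exact ⟨⟨h1.le, h2⟩, h3⟩

theorem limit {c w ε l n : ℝ} (hl : 0 < l) (hn : 0 < n) (h : |c - w * (n / (2 * l))| ≤ ε * (n / (2 * l))) :
    |2 * c * l / n - w| ≤ ε := by
  have h1 : 2 * c * l / n - w = (c - w * (n / (2 * l))) * (2 * l / n) := by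
    field_simp
  have h2 : 0 < 2 * l / n := by positivity
  rw [h1, abs_mul, abs_of_pos h2]
  calc |c - w * (n / (2 * l))| * (2 * l / n) ≤ ε * (n / (2 * l)) * (2 * l / n) := mul_le_mul_of_nonneg_right h h2.le
    _ = ε := by field_simp

/-- **Theorem.** -/
theorem result {r : ℕ} (α : Fin r → ℝ) (hα : Independent α) : ∃ E : Set ℕ, IsThin E ∧
    (∀ u v : Fin r → ℝ, (∀ j, u j ≤ v j) → (∀ j, v j ≤ u j + 1) →
      Tendsto (fun n : ℕ => 2 * (A α u v n : ℝ) * Real.log n / n) (atTop ⊓ 𝓟 Eᶜ) (𝓝 (∏ j, (v j - u j))) ∧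
      Tendsto (fun n : ℕ => 2 * (B α u v n : ℝ) * Real.log n / n) (atTop ⊓ 𝓟 Eᶜ) (𝓝 (∏ j, (v j - u j)))) ∧
    (∀ (W : ℕ) (ε : ℝ), 0 < ε → ∃ n₀ : ℕ, ∀ n : ℕ, n₀ ≤ n → n ∉ E → ∀ s t : ℕ, n ^ 2 - n ≤ s → s ≤ t → t ≤ n ^ 2 + n →
      (n : ℝ) / Real.log n ^ W ≤ (t : ℝ) - s → ∀ u v : Fin r → ℝ, (∀ j, u j ≤ v j) → (∀ j, v j ≤ u j + 1) →
      |(cnt (Bohr α u v) s t : ℝ) - (∏ j, (v j - u j)) * (((t : ℝ) - s) / (2 * Real.log n))| ≤
        ε * (((t : ℝ) - s) / (2 * Real.log n))) := by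
  obtain ⟨E, hE, h⟩ := Run7.h946.SQ.exceptional hα
  have key : ∀ (W : ℕ) (ε : ℝ), 0 < ε → ∃ n₀ : ℕ, ∀ n : ℕ, n₀ ≤ n → n ∉ E → ∀ s t : ℕ, n ^ 2 - n ≤ s → s ≤ t →
      t ≤ n ^ 2 + n →
      (n : ℝ) / Real.log n ^ W ≤ (t : ℝ) - s → ∀ u v : Fin r → ℝ, (∀ j, u j ≤ v j) → (∀ j, v j ≤ u j + 1) →
      |(cnt (Bohr α u v) s t : ℝ) - (∏ j, (v j - u j)) * (((t : ℝ) - s) / (2 * Real.log n))| ≤
        ε * (((t : ℝ) - s) / (2 * Real.log n)) := by
    intro W ε hε
    obtain ⟨n₀, h1⟩ := h W ε hε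
    refine ⟨n₀ + 1, fun n hn hnE s t hs hst ht hlen u v hu hv => ?_⟩
    refine h1 n (by omega) hnE s t ?_ hst ?_ hlen u v hu hv
    · obtain ⟨m, rfl⟩ : ∃ m, n = m + 1 := ⟨n - 1, by omega⟩
      have h2 : (m + 1) ^ 2 - (m + 1) = m ^ 2 + m := by
        have : (m + 1) ^ 2 = m ^ 2 + m + (m + 1) := by ring
        omega
      rw [h2] at hs
      simp only [Nat.add_sub_cancel]
      omega
    · nlinarith
  refine ⟨E, hE, fun u v hu hv => ⟨?_, ?_⟩, key⟩
  · rw [Metric.tendsto_nhds]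
    intro ε hε
    obtain ⟨n₀, h1⟩ := key 1 (ε / 2) (by positivity)
    rw [eventually_inf_principal]
    filter_upwards [eventually_ge_atTop (max n₀ 3)] with n hn hnE
    have hn3 : 3 ≤ n := le_trans (le_max_right _ _) hn
    have hn3r : (3 : ℝ) ≤ n := by exact_mod_cast hn3
    have hlog : 1 ≤ Real.log n := by
      rw [Real.le_log_iff_exp_le (by linarith)]
      have := Real.exp_one_lt_d9
      linarith
    have hsub : n ≤ n ^ 2 := Nat.le_self_pow (by norm_num) n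
    have h2 := h1 n (le_trans (le_max_left _ _) hn) hnE (n ^ 2 - n) (n ^ 2) le_rfl (Nat.sub_le _ _) (by omega) (by
      rw [Nat.cast_sub hsub]
      push_cast
      rw [pow_one]
      have : (n : ℝ) / Real.log n ≤ n := div_le_self (by linarith) hlog
      linarith) u v hu hv
    rw [Nat.cast_sub hsub] at h2
    have e : ((n ^ 2 : ℕ) : ℝ) - (((n ^ 2 : ℕ) : ℝ) - n) = n := by ring
    rw [e] at h2
    rw [A_eq α u v n hn3, Real.dist_eq]
    have h3 := limit (by linarith) (by linarith) h2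
    linarith
  · rw [Metric.tendsto_nhds]
    intro ε hε
    obtain ⟨n₀, h1⟩ := key 1 (ε / 2) (by positivity)
    rw [eventually_inf_principal]
    filter_upwards [eventually_ge_atTop (max n₀ 3)] with n hn hnE
    have hn3 : 3 ≤ n := le_trans (le_max_right _ _) hn
    have hn3r : (3 : ℝ) ≤ n := by exact_mod_cast hn3
    have hlog : 1 ≤ Real.log n := by
      rw [Real.le_log_iff_exp_le (by linarith)]
      have := Real.exp_one_lt_d9
      linarith
    have e : ((n ^ 2 + n : ℕ) : ℝ) - ((n ^ 2 : ℕ) : ℝ) = n := by push_cast; ring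
    have h2 := h1 n (le_trans (le_max_left _ _) hn) hnE (n ^ 2) (n ^ 2 + n) (Nat.sub_le _ _) (by omega) le_rfl (by
      rw [e, pow_one]
      exact div_le_self (by linarith) hlog) u v hu hv
    rw [e] at h2
    rw [B_eq α u v n hn3, Real.dist_eq]
    have h3 := limit (by linarith) (by linarith) h2
    linarith

end Pool.Agent.Results.MP_a8fbd7_nt.BohrEquidistribution
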