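import Mathlib
import Pool.Agent.Run7.h880.RP.SqM
import Pool.Agent.Run7.h880.RP.Big

/-!
# MP_a8fbd7_nt: the limit shape of the pairs of sampled counts on both sides of the squares

Instead of all the primes of `[n^2 - n, n^2]` and of `[n^2, n^2 + n]` we count the primes at `m` random positions on each side:
the `n^2 - w j` and the `n^2 + v j` with `w j`, `v j` independent and uniform in `[1, q]`, `q ≤ N` (for instance `q = N`). For
`m = kap log² N` the two counts, divided by their expected value `(kap / 2) log N`, do not tend to `1` in all of `(N, 2 N]`: the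
pairs `(x, y)` of the normalized counts for the different `n` fill, in probability, the region `kap (rate x + rate y) ≤ 2` in the
Hausdorff distance. For `kap → ∞` the region shrinks to the point `(1, 1)`.
-/

set_option autoImplicit false

namespace Pool.Agent.Results.MP_a8fbd7_nt.LimitShape

open Finset Filter

/-- the number of the `j` for which `n ^ 2 - w j` is a prime -/
def before {m : ℕ} (w : Fin m → ℕ) (n : ℕ) : ℕ := (univ.filter fun j => (n ^ 2 - w j).Prime).card

/-- the number of the `j` for which `n ^ 2 + v j` is a prime -/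
def after {m : ℕ} (v : Fin m → ℕ) (n : ℕ) : ℕ := (univ.filter fun j => (n ^ 2 + v j).Prime).card

/-- all the `m`-tuples of integers of `[1, q]` -/
def positions (q m : ℕ) : Finset (Fin m → ℕ) := Fintype.piFinset fun _ => Icc 1 q

/-- the numbers of the primes of `[n ^ 2 - q, n ^ 2)` and of `(n ^ 2, n ^ 2 + q]` are `q / (2 log N)` up to the factor
`1 + O(1 / log N)` -/
def Regular (N q n : ℕ) : Prop :=
  |(((Icc 1 q).filter fun w => (n ^ 2 - w).Prime).card : ℝ) / q - 1 / (2 * Real.log N)| ≤ 3 / Real.log N ^ 2 ∧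
  |(((Icc 1 q).filter fun w => (n ^ 2 + w).Prime).card : ℝ) / q - 1 / (2 * Real.log N)| ≤ 3 / Real.log N ^ 2

/-- the rate function of the Poisson law -/
noncomputable def rate (u : ℝ) : ℝ := 1 - u + u * Real.log u

/-- the limit shape -/
def Region (kap : ℝ) : Set (ℝ × ℝ) := {z | 0 ≤ z.1 ∧ 0 ≤ z.2 ∧ kap * (rate z.1 + rate z.2) ≤ 2}

/-- the distance of `z` from the pair of the two counts of `n`, divided by their expected value `(kap / 2) log N` -/
noncomputable def dist (kap : ℝ) (N : ℕ) {m : ℕ} (w v : Fin m → ℕ) (n : ℕ) (z : ℝ × ℝ) : ℝ :=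
  |before w n / (kap / 2 * Real.log N) - z.1| + |after v n / (kap / 2 * Real.log N) - z.2|

/-- the pairs of normalized counts for the regular `n` of `(N, 2 N]` fill the region, up to `ε` -/
def Fills (kap ε : ℝ) (N q : ℕ) {m : ℕ} (w v : Fin m → ℕ) : Prop :=
  (∀ n ∈ Ioc N (2 * N), Regular N q n → ∃ z ∈ Region kap, dist kap N w v n z ≤ ε) ∧
  (∀ z ∈ Region kap, ∃ n ∈ Ioc N (2 * N), Regular N q n ∧ dist kap N w v n z ≤ ε)

open Classical in
theorem result :
    -- almost all integers are regular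
    (∀ a U : ℕ, ∃ N₀ : ℕ, ∀ N : ℕ, N₀ ≤ N → ∀ q : ℕ, (N : ℝ) ≤ q * Real.log N ^ a → q ≤ N →
      (((Ioc N (2 * N)).filter fun n => ¬ Regular N q n).card : ℝ) ≤ N / Real.log N ^ U) ∧
    -- the limit shape for `m = kap log² N`
    (∀ kap ε : ℝ, 0 < kap → 0 < ε → ∀ a : ℕ, ∃ (N₀ : ℕ) (K : ℝ), ∀ N : ℕ, N₀ ≤ N → ∀ q : ℕ,
      (N : ℝ) ≤ q * Real.log N ^ a → q ≤ N → ∀ m : ℕ, |(m : ℝ) - kap * Real.log N ^ 2| ≤ 1 →
      (((positions q m ×ˢ positions q m).filter fun p => ¬ Fills kap ε N q p.1 p.2).card : ℝ) ≤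
        K / Real.log N * ((positions q m ×ˢ positions q m).card : ℝ)) ∧
    -- the law for more positions
    (∀ ε : ℝ, 0 < ε → ∃ κ₀ : ℝ, ∃ N₀ : ℕ, ∀ N : ℕ, N₀ ≤ N → ∀ q : ℕ, 1 ≤ q → ∀ m : ℕ, κ₀ * Real.log N ^ 2 ≤ m →
      (((positions q m).filter fun w => ∃ n ∈ Ioc N (2 * N), Regular N q n ∧
        (ε < |2 * Real.log N / m * before w n - 1| ∨ ε < |2 * Real.log N / m * after w n - 1|)).card : ℝ) ≤
        (positions q m).card / N) ∧
    -- the region
    (∀ ε : ℝ, 0 < ε → ∃ κ₀ : ℝ, 0 < κ₀ ∧ ∀ kap : ℝ, κ₀ ≤ kap → ∀ z ∈ Region kap, |z.1 - 1| ≤ ε ∧ |z.2 - 1| ≤ ε) ∧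
    (∀ kap : ℝ, 0 < kap → (((0 : ℝ), (0 : ℝ)) ∈ Region kap ↔ kap ≤ 1) ∧ (((0 : ℝ), (1 : ℝ)) ∈ Region kap ↔ kap ≤ 2) ∧
      (((1 : ℝ), (0 : ℝ)) ∈ Region kap ↔ kap ≤ 2)) := by
  have hreg : ∀ N q n : ℕ, Pool.Agent.Run7.h880.RP.RegSq N q n ↔ Regular N q n := by
    intro N q n
    have e : (12 : ℝ) / (2 * Real.log N) ^ 2 = 3 / Real.log N ^ 2 := by
      rw [mul_pow, div_mul_eq_div_div]
      norm_num
    unfold Pool.Agent.Run7.h880.RP.RegSq Regular
    rw [e]
    constructor
    · intro h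
      exact ⟨h false, h true⟩
    · rintro ⟨h1, h2⟩ b
      cases b
      · exact h1
      · exact h2
  have hgood : ∀ N q : ℕ, Pool.Agent.Run7.h880.RP.GoodSq N q = (Ioc N (2 * N)).filter fun n => Regular N q n := by
    intro N q
    unfold Pool.Agent.Run7.h880.RP.GoodSq
    exact filter_congr fun n _ => hreg N q n
  have hbad : ∀ N q : ℕ, (Ioc N (2 * N)).filter (fun n => ¬ Regular N q n) =
      Ioc N (2 * N) \ Pool.Agent.Run7.h880.RP.GoodSq N q := by
    intro N q
    rw [hgood]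
    ext n
    simp only [Finset.mem_sdiff, mem_filter]
    tauto
  have hcard : ∀ q m : ℕ, ((positions q m).card : ℝ) = (q : ℝ) ^ m := by
    intro q m
    have : (positions q m).card = q ^ m := by
      unfold positions
      rw [Fintype.card_piFinset]
      simp
    rw [this]
    push_cast
    rfl
  have hhits0 : ∀ (q m : ℕ) (w : Fin m → ℕ), w ∈ positions q m → ∀ n : ℕ,
      Pool.Agent.Run7.h880.MK.hits (Pool.Agent.Run7.h880.RP.sqA n q false) w = before w n := by
    intro q m w hw n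
    unfold Pool.Agent.Run7.h880.MK.hits before Pool.Agent.Run7.h880.RP.sqA
    congr 1
    refine filter_congr fun l _ => ?_
    rw [mem_filter]
    unfold positions at hw
    rw [Fintype.mem_piFinset] at hw
    simp only [Bool.false_eq_true, if_false]
    exact ⟨fun h => h.2, fun h => ⟨hw l, h⟩⟩
  have hhits1 : ∀ (q m : ℕ) (w : Fin m → ℕ), w ∈ positions q m → ∀ n : ℕ,
      Pool.Agent.Run7.h880.MK.hits (Pool.Agent.Run7.h880.RP.sqA n q true) w = after w n := by
    intro q m w hw n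
    unfold Pool.Agent.Run7.h880.MK.hits after Pool.Agent.Run7.h880.RP.sqA
    congr 1
    refine filter_congr fun l _ => ?_
    rw [mem_filter]
    unfold positions at hw
    rw [Fintype.mem_piFinset] at hw
    simp only [if_true]
    exact ⟨fun h => h.2, fun h => ⟨hw l, h⟩⟩
  have hRg : ∀ kap : ℝ, Pool.Agent.Run7.h880.RP.Reg2 (1 / 2) (kap / 4) = Region kap := by
    intro kap
    unfold Pool.Agent.Run7.h880.RP.Reg2 Region
    ext z
    show (0 ≤ z.1 ∧ 0 ≤ z.2 ∧ kap / 4 * (rate z.1 + rate z.2) ≤ 1 / 2) ↔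
      (0 ≤ z.1 ∧ 0 ≤ z.2 ∧ kap * (rate z.1 + rate z.2) ≤ 2)
    constructor
    · rintro ⟨h1, h2, h3⟩
      exact ⟨h1, h2, by linarith⟩
    · rintro ⟨h1, h2, h3⟩
      exact ⟨h1, h2, by linarith⟩
  refine ⟨?_, ?_, ?_, ?_, ?_⟩
  · intro a U
    obtain ⟨N₀, h⟩ := Pool.Agent.Run7.h880.RP.goodsq_card a U
    refine ⟨N₀, fun N hN q h1 h2 => ?_⟩
    rw [hbad]
    exact h N hN q h1 h2
  · intro kap ε hkap hε a
    obtain ⟨N₁, h1⟩ := Pool.Agent.Run7.h880.RP.goodsq_card a 1
    obtain ⟨K, hK, N₂, h2⟩ := Pool.Agent.Run7.h880.RP.main_sq kap ε hkap hε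
    obtain ⟨N₃, h3⟩ := eventually_atTop.1 ((Pool.Agent.N384.MQ.ev_log_ge 2).and (Run7.h337.MK.ev_pw a 1))
    refine ⟨max N₁ (max N₂ (max N₃ 1)), K, fun N hN q hq1 hq2 m hm => ?_⟩
    have hN1 : 1 ≤ N := le_trans (le_trans (le_trans (le_max_right _ _) (le_max_right _ _)) (le_max_right _ _)) hN
    have hNr : (1 : ℝ) ≤ N := by exact_mod_cast hN1
    have hN0 : (0 : ℝ) < N := by linarith
    obtain ⟨l3, l4⟩ := h3 N (le_trans (le_trans (le_trans (le_max_left _ _) (le_max_right _ _)) (le_max_right _ _)) hN)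
    have hL0 : 0 < Real.log N := by linarith
    have hJ1 := h1 N (le_trans (le_max_left _ _) hN) q hq1 hq2
    have hle : (N : ℝ) ^ (1 / 2 : ℝ) ≤ q := by
      have g1 : (N : ℝ) ^ (1 / 2 : ℝ) * (N : ℝ) ^ (1 / 2 : ℝ) = N := by
        rw [← Real.rpow_add hN0]
        norm_num
      have g2 : (N : ℝ) ^ (1 / 3 : ℝ) ≤ (N : ℝ) ^ (1 / 2 : ℝ) := Real.rpow_le_rpow_of_exponent_le hNr (by norm_num)
      have g3 : Real.log N ^ a ≤ (N : ℝ) ^ (1 / 2 : ℝ) := by linarith
      have g4 : (N : ℝ) ^ (1 / 2 : ℝ) * (N : ℝ) ^ (1 / 2 : ℝ) ≤ q * (N : ℝ) ^ (1 / 2 : ℝ) := by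
        rw [g1]
        exact hq1.trans (mul_le_mul_of_nonneg_left g3 (Nat.cast_nonneg q))
      exact le_of_mul_le_mul_right g4 (by positivity)
    have hJc : (N : ℝ) / 2 ≤ (Pool.Agent.Run7.h880.RP.GoodSq N q).card := by
      have hsub : Pool.Agent.Run7.h880.RP.GoodSq N q ⊆ Ioc N (2 * N) := by
        rw [hgood]
        exact filter_subset _ _
      have e : ((Ioc N (2 * N) \ Pool.Agent.Run7.h880.RP.GoodSq N q).card : ℝ) =
          N - (Pool.Agent.Run7.h880.RP.GoodSq N q).card := by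
        have hc := card_le_card hsub
        rw [card_sdiff_of_subset hsub, Nat.cast_sub hc, Nat.card_Ioc, Nat.cast_sub (by omega)]
        push_cast
        ring
      rw [e, pow_one] at hJ1
      have : (N : ℝ) / Real.log N ≤ N / 2 := div_le_div_of_nonneg_left (Nat.cast_nonneg _) (by norm_num) l3
      linarith
    have hmem : ∀ n, n ∈ Pool.Agent.Run7.h880.RP.GoodSq N q ↔ n ∈ Ioc N (2 * N) ∧ Regular N q n := by
      intro n
      rw [hgood, mem_filter]
    have key : ∀ p : (Fin m → ℕ) × (Fin m → ℕ),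
        (p ∈ positions q m ×ˢ positions q m ∧ ¬ Fills kap ε N q p.1 p.2) →
        ¬ Pool.Agent.Run7.h880.RP.Shape (Pool.Agent.Run7.h880.RP.GoodSq N q)
          (fun n => Pool.Agent.Run7.h880.RP.sqA n q false) (fun n => Pool.Agent.Run7.h880.RP.sqA n q true)
          (kap / 2 * Real.log N) (Pool.Agent.Run7.h880.RP.Reg2 (1 / 2) (kap / 4)) ε p := by
      rintro p ⟨hp, hnot⟩ hsh
      rw [mem_product] at hp
      refine hnot ?_
      unfold Pool.Agent.Run7.h880.RP.Shape at hsh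
      rw [hRg] at hsh
      obtain ⟨s1, s2⟩ := hsh
      constructor
      · intro n hn hr
        obtain ⟨z, hz, h4⟩ := s1 n ((hmem n).2 ⟨hn, hr⟩)
        rw [hhits0 q m p.1 hp.1, hhits1 q m p.2 hp.2] at h4
        exact ⟨z, hz, h4⟩
      · intro z hz
        obtain ⟨n, hn, h4⟩ := s2 z hz
        rw [hhits0 q m p.1 hp.1, hhits1 q m p.2 hp.2] at h4
        exact ⟨n, ((hmem n).1 hn).1, ((hmem n).1 hn).2, h4⟩
    refine le_trans ?_ (h2 N (le_trans (le_trans (le_max_left _ _) (le_max_right _ _)) hN) q hle hq2 _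
      (Finset.Subset.refl _) hJc m hm (fun p => p ∈ positions q m ×ˢ positions q m ∧ ¬ Fills kap ε N q p.1 p.2) key)
    refine Nat.cast_le.2 (card_le_card fun p hp => ?_)
    simp only [Finset.mem_filter] at hp ⊢
    exact ⟨hp.1, hp⟩
  · intro ε hε
    obtain ⟨lam₀, hl0, h1⟩ := Pool.Agent.Run7.h880.RP.big ε 12 2 hε (by norm_num)
    have hlim : Tendsto (fun N : ℕ => 2 * Real.log N) atTop atTop :=
      (Real.tendsto_log_atTop.comp (tendsto_natCast_atTop_atTop (R := ℝ))).const_mul_atTop (by norm_num)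
    have h4 : ∀ᶠ N : ℕ in atTop, _ := hlim.eventually h1
    obtain ⟨N₂, h4⟩ := eventually_atTop.1 (h4.and (Pool.Agent.N384.MQ.ev_log_ge 1))
    refine ⟨4 * lam₀, max N₂ 2, fun N hN q hq m hm => ?_⟩
    obtain ⟨h5, l1⟩ := h4 N (le_trans (le_max_left _ _) hN)
    have hN1 : 2 ≤ N := le_trans (le_max_right _ _) hN
    have hN2r : (2 : ℝ) ≤ N := by exact_mod_cast hN1
    have hNr : (0 : ℝ) < N := by linarith
    have hL0 : 0 < Real.log N := by linarith
    rw [hcard]
    have hcq : ((Icc 1 q).card : ℝ) = q := by rw [Nat.card_Icc]; push_cast; simp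
    have one : ∀ b : Bool, (((positions q m).filter fun w => w ∈ positions q m ∧ ∃ n ∈ Ioc N (2 * N), Regular N q n ∧
        ε < |2 * Real.log N / m * (Pool.Agent.Run7.h880.MK.hits (Pool.Agent.Run7.h880.RP.sqA n q b) w : ℝ) - 1|).card : ℝ) ≤
        Real.exp (-(2 * Real.log N)) * (q : ℝ) ^ m := by
      intro b
      have h6 := h5 (Icc 1 q) (Pool.Agent.Run7.h880.RP.GoodSq N q) (fun n => Pool.Agent.Run7.h880.RP.sqA n q b)
        (nonempty_Icc.2 hq) (fun j _ => Pool.Agent.Run7.h880.RP.sqA_sub _ _ _) (by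
          intro j hj
          unfold Pool.Agent.Run7.h880.RP.GoodSq at hj
          rw [mem_filter] at hj
          rw [hcq]
          exact hj.2 b) (by
          show ((Pool.Agent.Run7.h880.RP.GoodSq N q).card : ℝ) ≤ Real.exp (2 * (2 * Real.log N))
          have h7 : Pool.Agent.Run7.h880.RP.GoodSq N q ⊆ Ioc N (2 * N) := by
            rw [hgood]
            exact filter_subset _ _
          have h8 : ((Pool.Agent.Run7.h880.RP.GoodSq N q).card : ℝ) ≤ N := by
            have := card_le_card h7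
            rw [Nat.card_Ioc] at this
            exact_mod_cast (by omega : (Pool.Agent.Run7.h880.RP.GoodSq N q).card ≤ N)
          refine h8.trans ?_
          calc (N : ℝ) = Real.exp (Real.log N) := (Real.exp_log hNr).symm
            _ ≤ _ := Real.exp_le_exp.2 (by linarith)) m (by
          show lam₀ * (2 * Real.log N) ^ 2 ≤ m
          have e : lam₀ * (2 * Real.log N) ^ 2 = 4 * lam₀ * Real.log N ^ 2 := by ring
          rw [e]
          exact hm)
        (fun w => w ∈ positions q m ∧ ∃ n ∈ Ioc N (2 * N), Regular N q n ∧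
          ε < |2 * Real.log N / m * (Pool.Agent.Run7.h880.MK.hits (Pool.Agent.Run7.h880.RP.sqA n q b) w : ℝ) - 1|) (by
          rintro w ⟨hw, n, hn, hr, h9⟩
          refine ⟨n, by rw [hgood, mem_filter]; exact ⟨hn, hr⟩, ?_⟩
          show ε < |(Pool.Agent.Run7.h880.MK.hits (Pool.Agent.Run7.h880.RP.sqA n q b) w : ℝ) / (m / (2 * Real.log N)) - 1|
          have e : (Pool.Agent.Run7.h880.MK.hits (Pool.Agent.Run7.h880.RP.sqA n q b) w : ℝ) / (m / (2 * Real.log N)) =
              2 * Real.log N / m * (Pool.Agent.Run7.h880.MK.hits (Pool.Agent.Run7.h880.RP.sqA n q b) w : ℝ) := by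
            rw [div_div_eq_mul_div]
            ring
          rw [e]
          exact h9)
      rw [hcq] at h6
      exact h6
    have hsub : (positions q m).filter (fun w => ∃ n ∈ Ioc N (2 * N), Regular N q n ∧
        (ε < |2 * Real.log N / m * before w n - 1| ∨ ε < |2 * Real.log N / m * after w n - 1|)) ⊆
        ((positions q m).filter fun w => w ∈ positions q m ∧ ∃ n ∈ Ioc N (2 * N), Regular N q n ∧
        ε < |2 * Real.log N / m * (Pool.Agent.Run7.h880.MK.hits (Pool.Agent.Run7.h880.RP.sqA n q false) w : ℝ) - 1|) ∪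
        ((positions q m).filter fun w => w ∈ positions q m ∧ ∃ n ∈ Ioc N (2 * N), Regular N q n ∧
        ε < |2 * Real.log N / m * (Pool.Agent.Run7.h880.MK.hits (Pool.Agent.Run7.h880.RP.sqA n q true) w : ℝ) - 1|) := by
      intro w hw
      simp only [Finset.mem_filter] at hw
      obtain ⟨g1, n, hn, hr, g2⟩ := hw
      simp only [Finset.mem_union, Finset.mem_filter]
      rcases g2 with g2 | g2
      · refine Or.inl ⟨g1, g1, n, hn, hr, ?_⟩
        rw [hhits0 q m w g1]
        exact g2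
      · refine Or.inr ⟨g1, g1, n, hn, hr, ?_⟩
        rw [hhits1 q m w g1]
        exact g2
    have h6 := (card_le_card hsub).trans (card_union_le _ _)
    have h7 : (((positions q m).filter (fun w => ∃ n ∈ Ioc N (2 * N), Regular N q n ∧
        (ε < |2 * Real.log N / m * before w n - 1| ∨ ε < |2 * Real.log N / m * after w n - 1|))).card : ℝ) ≤
        Real.exp (-(2 * Real.log N)) * (q : ℝ) ^ m + Real.exp (-(2 * Real.log N)) * (q : ℝ) ^ m :=
      le_trans (by exact_mod_cast h6) (add_le_add (one false) (one true))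
    refine h7.trans ?_
    have h8 : Real.exp (-(2 * Real.log N)) = 1 / (N : ℝ) ^ 2 := by
      rw [Real.exp_neg, two_mul, Real.exp_add, Real.exp_log hNr, one_div, sq]
    rw [h8]
    have h9 : (1 : ℝ) / (N : ℝ) ^ 2 * (q : ℝ) ^ m + 1 / (N : ℝ) ^ 2 * (q : ℝ) ^ m = 2 / N * ((q : ℝ) ^ m / N) := by
      field_simp
      ring
    rw [h9]
    have h10 : (2 : ℝ) / N ≤ 1 := by rw [div_le_one hNr]; exact hN2r
    exact mul_le_of_le_one_left (by positivity) h10
  · intro ε hε
    obtain ⟨κ₀, h0, h1⟩ := Pool.Agent.Run7.h880.RP.reg2_small ε hε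
    refine ⟨κ₀, h0, fun kap hkap z hz => ?_⟩
    rw [← hRg] at hz
    exact h1 kap hkap z hz
  · intro kap hkap
    have r0 : rate 0 = 1 := by simp [rate]
    have r1 : rate 1 = 0 := by simp [rate]
    refine ⟨?_, ?_, ?_⟩
    · show (0 ≤ (0 : ℝ) ∧ 0 ≤ (0 : ℝ) ∧ kap * (rate 0 + rate 0) ≤ 2) ↔ _
      rw [r0]
      constructor
      · rintro ⟨_, _, h⟩
        linarith
      · intro h
        exact ⟨le_rfl, le_rfl, by linarith⟩
    · show (0 ≤ (0 : ℝ) ∧ 0 ≤ (1 : ℝ) ∧ kap * (rate 0 + rate 1) ≤ 2) ↔ _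
      rw [r0, r1]
      constructor
      · rintro ⟨_, _, h⟩
        linarith
      · intro h
        exact ⟨le_rfl, zero_le_one, by linarith⟩
    · show (0 ≤ (1 : ℝ) ∧ 0 ≤ (0 : ℝ) ∧ kap * (rate 1 + rate 0) ≤ 2) ↔ _
      rw [r0, r1]
      constructor
      · rintro ⟨_, _, h⟩
        linarith
      · intro h
        exact ⟨zero_le_one, le_rfl, by linarith⟩

end Pool.Agent.Results.MP_a8fbd7_nt.LimitShape
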