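import Mathlib
import Pool.Agent.Run7.h794.MK.All
import Pool.Agent.Run7.h591.EG.Fin2

set_option autoImplicit false
set_option maxHeartbeats 4000000

namespace Pool.Agent.Results.MP_a8fbd7_nt.MeanErgodic

open Finset
open Pool.Agent.Run7.h591.EG

/-- the primes counted by `A(n)` -/
def PA (n : ℕ) : Finset ℕ := (Icc (n ^ 2 - n) (n ^ 2)).filter Nat.Prime

/-- the primes counted by `B(n)` -/
def PB (n : ℕ) : Finset ℕ := (Icc (n ^ 2) (n ^ 2 + n)).filter Nat.Prime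

theorem result {H : Type*} [NormedAddCommGroup H] [InnerProductSpace ℂ H] [CompleteSpace H] (U : H →ₗᵢ[ℂ] H) :
    ∃ l : H → H,
      (∀ (f : H) (ε : ℝ), 0 < ε → ∀ C : ℕ, ∃ N₀ : ℕ, ∀ N : ℕ, N₀ ≤ N → ∃ Bad : Finset ℕ, Bad ⊆ Ioc N (2 * N) ∧
        (Bad.card : ℝ) ≤ N / Real.log N ^ C ∧ ∀ n ∈ Ioc N (2 * N), n ∉ Bad →
          ‖((2 * Real.log n / n : ℝ) : ℂ) • ∑ p ∈ PA n, U^[p] f - l f‖ ≤ ε ∧
          ‖((2 * Real.log n / n : ℝ) : ℂ) • ∑ p ∈ PB n, U^[p] f - l f‖ ≤ ε) ∧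
      (∀ (g : H) (r : ℕ), 1 ≤ r → U^[r] g = g →
        l g = (1 / (Nat.totient r : ℂ)) • ∑ c ∈ (range r).filter (fun c => c.Coprime r), U^[c] g) ∧
      (∀ f : H, (∀ (g : H) (r : ℕ), 1 ≤ r → U^[r] g = g → inner ℂ g f = 0) → l f = 0) := by
  obtain ⟨l, h1, h2, h3⟩ := mean_erg Pool.Agent.Run7.h794.MK.all_all U
  refine ⟨l, ?_, h2, h3⟩
  intro f ε hε
  obtain ⟨n₀, hn₀⟩ := half_lo
  obtain ⟨n₁, hn₁⟩ := half_hi
  have a1 := AW_at' (h1 f ε hε) (fun n => n ^ 2 - n) (fun n => n ^ 2) 1 n₀ hn₀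
    (fun n => ‖((2 * Real.log n : ℝ) : ℂ) • ∑ p ∈ pr (n ^ 2 - n) (n ^ 2), U^[p] f - ((n : ℝ) : ℂ) • l f‖ ≤ ε * n) (by
      intro N n _ h
      rwa [len_lo] at h)
  have a2 := AW_at' (h1 f ε hε) (fun n => n ^ 2) (fun n => n ^ 2 + n) 1 n₁ hn₁
    (fun n => ‖((2 * Real.log n : ℝ) : ℂ) • ∑ p ∈ pr (n ^ 2) (n ^ 2 + n), U^[p] f - ((n : ℝ) : ℂ) • l f‖ ≤ ε * n) (by
      intro N n _ h
      rwa [len_hi] at h)
  refine alm_mono _ _ 3 ?_ (alm_and _ _ a1 a2)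
  rintro n hn ⟨e1, e2⟩
  have hn0 : (0 : ℝ) < n := by exact_mod_cast (show 0 < n by omega)
  have hA : PA n = pr (n ^ 2 - n) (n ^ 2) := (pr_Icc _ _ (lo_not_prime n hn)).symm
  have hB : PB n = pr (n ^ 2) (n ^ 2 + n) := (pr_Icc _ _ (sq_not_prime n)).symm
  have key : ∀ s : H, ‖((2 * Real.log n : ℝ) : ℂ) • s - ((n : ℝ) : ℂ) • l f‖ ≤ ε * n →
      ‖((2 * Real.log n / n : ℝ) : ℂ) • s - l f‖ ≤ ε := by
    intro s hs
    have hnC : ((n : ℝ) : ℂ) ≠ 0 := by exact_mod_cast hn0.ne'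
    have e3 : ((2 * Real.log n / n : ℝ) : ℂ) • s - l f =
        (((n : ℝ) : ℂ))⁻¹ • (((2 * Real.log n : ℝ) : ℂ) • s - ((n : ℝ) : ℂ) • l f) := by
      rw [smul_sub, smul_smul, smul_smul, inv_mul_cancel₀ hnC, one_smul]
      congr 2
      rw [Complex.ofReal_div, div_eq_inv_mul]
    rw [e3, norm_smul, norm_inv, Complex.norm_real, Real.norm_eq_abs, abs_of_pos hn0, inv_mul_le_iff₀ hn0]
    linarith
  rw [hA, hB]
  exact ⟨key _ e1, key _ e2⟩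

end Pool.Agent.Results.MP_a8fbd7_nt.MeanErgodic
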