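import Mathlib
import Pool.Agent.Run7.h337.MK.OppSym
import Pool.Agent.Run7.h880.MK.Maj1
import Pool.Agent.Run7.h794.MK.SiaAll

/-!
# Both intervals of Oppermann: integers symmetric about the square, moved into the primes by flat families
-/

set_option autoImplicit false

namespace Pool.Agent.Results.MP_a8fbd7_nt.SymmetricFlatShifts

open Finset
open Pool.Agent.N384.MQ (Flat)
open Run7.h337.MK (oppLeft mirror mirrorCount expd)

theorem result (T U : ℕ) (ε : ℝ) (hε : 0 < ε) (hε1 : ε ≤ 1) :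
    ∃ V C D X₀ : ℕ, ∀ X : ℕ, X₀ ≤ X →
    ∃ E : Finset ℕ, (E.card : ℝ) ≤ X / Real.log X ^ U ∧ ∀ n : ℕ, 1 ≤ n → n ≤ X → n ∉ E →
    (∀ b : Bool, |(((Ioo (oppLeft n b) (oppLeft n b + n)).filter Nat.Prime).card : ℝ) - n / (2 * Real.log n)| ≤
      ε * (n / (2 * Real.log n))) ∧
    ∀ (q : Bool → ℕ) [∀ b, NeZero (q b)],
    (∀ b, (X : ℝ) ^ (2 / 3 : ℝ) * Real.log X ^ C ≤ q b ∧ (q b : ℝ) * Real.log X ^ D ≤ n) →
    ∀ {ι : Bool → Type} (s : ∀ b, Finset (ι b)) (y : ∀ b, ι b → ZMod (q b)),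
    (∀ b, (s b).Nonempty ∧ Flat (q b) (1 / Real.log X ^ V) (s b) (y b)) →
    ∀ κ : Bool → ℤ, (∀ b, κ b ≠ 0 ∧ ((κ b).natAbs : ℝ) ≤ Real.log X ^ T) →
      (∃ F : Finset ℕ, (F.card : ℝ) ≤ n / Real.log X ^ U ∧ ∀ j ∈ Icc 1 (n - 1), j ∉ F →
        IsCoprime ((n ^ 2 - j : ℕ) : ℤ) (κ false) → IsCoprime ((n ^ 2 + j : ℕ) : ℤ) (κ true) →
        |(mirrorCount n false j (κ false) (y false) (s false) : ℝ) * mirrorCount n true j (κ true) (y true) (s true) -
          expd n (κ false) (s false) * expd n (κ true) (s true)| ≤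
          ε * (expd n (κ false) (s false) * expd n (κ true) (s true))) ∧
      (∀ K ⊆ Icc 1 (n - 1), (n : ℝ) / Real.log X ^ T ≤ K.card →
        (∀ j ∈ K, IsCoprime ((n ^ 2 - j : ℕ) : ℤ) (κ false) ∧ IsCoprime ((n ^ 2 + j : ℕ) : ℤ) (κ true)) →
        |(∑ j ∈ K, (mirrorCount n false j (κ false) (y false) (s false) : ℝ) *
            mirrorCount n true j (κ true) (y true) (s true)) -
          K.card * (expd n (κ false) (s false) * expd n (κ true) (s true))| ≤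
          ε * (K.card * (expd n (κ false) (s false) * expd n (κ true) (s true)))) ∧
      (∀ b : Bool, (κ b).natAbs = 1 →
        |(∑ j ∈ (Icc 1 (n - 1)).filter (fun j => Nat.Prime (mirror n (!b) j)), (mirrorCount n b j (κ b) (y b) (s b) : ℝ)) -
          (s b).card * (n / (4 * Real.log n ^ 2))| ≤ ε * ((s b).card * (n / (4 * Real.log n ^ 2)))) := by
  obtain ⟨V, C, D, X₀, h⟩ := Run7.h337.MK.opp_sym
    (Pool.Agent.Run7.h880.MK.t_MAJ1 Pool.Agent.Run7.h794.MK.sia_all) T U ε hε hε1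
  exact ⟨V, C, D, X₀, h⟩

end Pool.Agent.Results.MP_a8fbd7_nt.SymmetricFlatShifts
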